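import Pool.Agent.helper84.VQ.Spec4a
import Pool.Agent.helper11.VQ.Spec3b
import Pool.Agent.helper62.VQE.PZE
import Pool.Agent.helper92.VQE.PCF
import Pool.Agent.helper40.VQ.VCD

/-!
# MP_07c750, project VQ, row FE4: the fields of the flow
-/

set_option autoImplicit false

open scoped MatrixGroups ContDiff Topology UpperHalfPlane ComplexConjugate ENNReal
open UpperHalfPlane MeasureTheory Filter Set

namespace Pool.Agent.VQ

open Pool.Agent.RS
open Pool.Agent.VQE (nm)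

/-- the potential in the disc coordinate is smooth -/
theorem FE4_smooth (U : ℍ → ℝ) (hU : QU.CD ∞ U) (g : SL(2, ℝ)) : ContDiffOn ℝ ∞ (Ug U g) (Metric.ball 0 2) := by
  have h1 := VCD_smooth g
  have h2 : ContDiffOn ℝ ∞ (QU.onC U) {w : ℂ | 0 < w.im} := hU
  have h3 := h2.comp h1 (fun v _ => (g • cdi v).im_pos)
  refine h3.congr (fun v _ => ?_)
  unfold Ug QU.onC
  rw [Function.comp_apply, ofComplex_apply]

theorem FE4_at (U : ℍ → ℝ) (hU : QU.CD ∞ U) (g : SL(2, ℝ)) (v : ℂ) (hv : ‖v‖ ≤ 1) : ContDiffAt ℝ ∞ (Ug U g) v :=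
  (FE4_smooth U hU g).contDiffAt (Metric.isOpen_ball.mem_nhds (by
    rw [Metric.mem_ball, dist_zero_right]
    linarith))

theorem FE4_sub (U : ℍ → ℝ) (g : SL(2, ℝ)) : fderiv ℝ (fun w => Ug U g w - 1) = fderiv ℝ (Ug U g) := by
  funext v
  rw [fderiv_sub_const]

theorem FE4_f1 (Γ : Subgroup SL(2, ℝ)) (δ : ℝ) (B : ℕ → ℝ) (U : ℍ → ℝ) (h : Pot Γ δ B U) (g : SL(2, ℝ)) (v : ℂ) (hv : ‖v‖ ≤ 1) :
    ‖fderiv ℝ (Ug U g) v‖ ≤ δ := by
  have h1 := h.near g v hv 1 (by norm_num)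
  rw [norm_iteratedFDeriv_one, FE4_sub] at h1
  exact h1

theorem FE4_f2 (Γ : Subgroup SL(2, ℝ)) (δ : ℝ) (B : ℕ → ℝ) (U : ℍ → ℝ) (h : Pot Γ δ B U) (g : SL(2, ℝ)) (v : ℂ) (hv : ‖v‖ ≤ 1) :
    ‖fderiv ℝ (fderiv ℝ (Ug U g)) v‖ ≤ δ := by
  have h1 := h.near g v hv 2 (by norm_num)
  rw [← norm_iteratedFDeriv_fderiv, norm_iteratedFDeriv_one, FE4_sub] at h1
  exact h1

theorem FE4_f0 (Γ : Subgroup SL(2, ℝ)) (δ : ℝ) (B : ℕ → ℝ) (U : ℍ → ℝ) (h : Pot Γ δ B U) (g : SL(2, ℝ)) : |U (g • I) - 1| ≤ δ := by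
  have h1 := h.near g 0 (by simp) 0 (by norm_num)
  rw [norm_iteratedFDeriv_zero, Real.norm_eq_abs] at h1
  have h2 : Ug U g 0 = U (g • I) := by
    unfold Ug
    rw [VQE.PCF_cdi0]
  rwa [h2] at h1

theorem FE4_n2 (Γ : Subgroup SL(2, ℝ)) (δ : ℝ) (B : ℕ → ℝ) (U : ℍ → ℝ) (h : Pot Γ δ B U) (g : SL(2, ℝ)) : |n2 U g| ≤ δ := by
  unfold n2
  have h1 := (fderiv ℝ (Ug U g) 0).le_opNorm Complex.I
  rw [Complex.norm_I, mul_one, Real.norm_eq_abs] at h1
  exact h1.trans (FE4_f1 Γ δ B U h g 0 (by simp))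

theorem FE4_v1 (Γ : Subgroup SL(2, ℝ)) (δ : ℝ) (B : ℕ → ℝ) (U : ℍ → ℝ) (h : Pot Γ δ B U) (g : SL(2, ℝ)) (v : ℂ) (hv : ‖v‖ ≤ 1) :
    |Ug U g v - Ug U g 0| ≤ δ * ‖v‖ := by
  have h1 := (convex_closedBall (0 : ℂ) 1).norm_image_sub_le_of_norm_fderiv_le (𝕜 := ℝ) (f := Ug U g) (C := δ) (x := 0) (y := v)
    (fun x hx => (FE4_at U h.smooth g x (by rwa [Metric.mem_closedBall, dist_zero_right] at hx)).differentiableAt (by simp))
    (fun x hx => FE4_f1 Γ δ B U h g x (by rwa [Metric.mem_closedBall, dist_zero_right] at hx))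
    (by simp) (by rwa [Metric.mem_closedBall, dist_zero_right])
  rwa [sub_zero, Real.norm_eq_abs] at h1

theorem FE4_v2 (Γ : Subgroup SL(2, ℝ)) (δ : ℝ) (B : ℕ → ℝ) (U : ℍ → ℝ) (h : Pot Γ δ B U) (g : SL(2, ℝ)) (v : ℂ) (hv : ‖v‖ ≤ 1) :
    ‖fderiv ℝ (Ug U g) v - fderiv ℝ (Ug U g) 0‖ ≤ δ * ‖v‖ := by
  have h1 := (convex_closedBall (0 : ℂ) 1).norm_image_sub_le_of_norm_fderiv_le (𝕜 := ℝ) (f := fderiv ℝ (Ug U g)) (C := δ) (x := 0) (y := v)
    (fun x hx => by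
      have h2 := FE4_at U h.smooth g x (by rwa [Metric.mem_closedBall, dist_zero_right] at hx)
      exact ((h2.fderiv_right (m := 1) (by norm_cast)).differentiableAt (by simp)))
    (fun x hx => FE4_f2 Γ δ B U h g x (by rwa [Metric.mem_closedBall, dist_zero_right] at hx))
    (by simp) (by rwa [Metric.mem_closedBall, dist_zero_right])
  rwa [sub_zero] at h1

theorem FE4_nm (x : SL(2, ℝ)) : |x.1 0 0 - 1| ≤ nm x ∧ |x.1 0 1| ≤ nm x ∧ |x.1 1 0| ≤ nm x ∧ |x.1 1 1 - 1| ≤ nm x := by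
  unfold nm
  refine ⟨?_, ?_, ?_, ?_⟩
  · exact (le_max_left _ _).trans (le_max_left _ _)
  · exact (le_max_right _ _).trans (le_max_left _ _)
  · exact (le_max_left _ _).trans (le_max_right _ _)
  · exact (le_max_right _ _).trans (le_max_right _ _)

theorem FE4_cn (p q : ℝ) : ‖((p : ℝ) : ℂ) + ((q : ℝ) : ℂ) * Complex.I‖ ≤ |p| + |q| := by
  refine (norm_add_le _ _).trans ?_
  rw [norm_mul, Complex.norm_I, mul_one, Complex.norm_real, Complex.norm_real, Real.norm_eq_abs, Real.norm_eq_abs]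

/-- the base point and the derivative of the action of a matrix close to `1` -/
theorem FE4_ze (x : SL(2, ℝ)) (hx : nm x ≤ 1 / 10) : ‖VQE.ze (VQE.mt x)‖ ≤ 5 * nm x ∧ ‖VQE.et (VQE.mt x) - 1‖ ≤ 6 * nm x := by
  obtain ⟨ha, hb, hc, hd⟩ := FE4_nm x
  have hR0 := (VQE.PZE_one x).2
  unfold VQE.ze VQE.et
  unfold VQE.mt at hR0 ⊢
  have ha' := abs_le.1 ha
  have hb' := abs_le.1 hb
  have hc' := abs_le.1 hc
  have hd' := abs_le.1 hd
  set n := nm x with hn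
  have hn0 : 0 ≤ n := (abs_nonneg _).trans ha
  have hP : ‖((x.1 0 1 + x.1 1 0 : ℝ) : ℂ) + ((x.1 0 0 - x.1 1 1 : ℝ) : ℂ) * Complex.I‖ ≤ 4 * n := by
    refine (FE4_cn _ _).trans ?_
    have e1 : |x.1 0 1 + x.1 1 0| ≤ 2 * n := by
      rw [abs_le]
      constructor <;> linarith
    have e2 : |x.1 0 0 - x.1 1 1| ≤ 2 * n := by
      rw [abs_le]
      constructor <;> linarith
    linarith
  have hr : ‖((x.1 0 1 - x.1 1 0 : ℝ) : ℂ) + ((x.1 0 0 + x.1 1 1 - 2 : ℝ) : ℂ) * Complex.I‖ ≤ 4 * n := by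
    refine (FE4_cn _ _).trans ?_
    have e1 : |x.1 0 1 - x.1 1 0| ≤ 2 * n := by
      rw [abs_le]
      constructor <;> linarith
    have e2 : |x.1 0 0 + x.1 1 1 - 2| ≤ 2 * n := by
      rw [abs_le]
      constructor <;> linarith
    linarith
  set r : ℂ := ((x.1 0 1 - x.1 1 0 : ℝ) : ℂ) + ((x.1 0 0 + x.1 1 1 - 2 : ℝ) : ℂ) * Complex.I with hrd
  set P : ℂ := ((x.1 0 1 + x.1 1 0 : ℝ) : ℂ) + ((x.1 0 0 - x.1 1 1 : ℝ) : ℂ) * Complex.I with hPd
  have hRr : ((x.1 0 1 - x.1 1 0 : ℝ) : ℂ) + ((x.1 0 0 + x.1 1 1 : ℝ) : ℂ) * Complex.I = r + 2 * Complex.I := by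
    rw [hrd]
    push_cast
    ring
  rw [hRr] at hR0 ⊢
  have hRim : (9 : ℝ) / 5 ≤ ‖r + 2 * Complex.I‖ := by
    rw [← hRr]
    refine le_trans ?_ (Complex.abs_im_le_norm _)
    refine le_trans ?_ (le_abs_self _)
    simp only [Complex.add_im, Complex.mul_im, Complex.ofReal_re, Complex.ofReal_im, Complex.I_re, Complex.I_im, mul_zero, mul_one,
      zero_add, add_zero]
    linarith
  set R : ℂ := r + 2 * Complex.I with hRd
  have hRpos : 0 < ‖R‖ := by linarith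
  refine ⟨?_, ?_⟩
  · rw [norm_div, norm_mul, Complex.norm_two, div_le_iff₀ hRpos]
    nlinarith
  · have e1 : -4 / R ^ 2 - 1 = -(4 * Complex.I * r + r ^ 2) / R ^ 2 := by
      have hI := Complex.I_sq
      rw [div_sub_one (pow_ne_zero 2 hR0)]
      congr 1
      rw [hRd]
      linear_combination (-4 : ℂ) * hI
    rw [e1, norm_div, norm_neg, norm_pow, div_le_iff₀ (by positivity)]
    have e2 : ‖4 * Complex.I * r + r ^ 2‖ ≤ 4 * ‖r‖ + ‖r‖ ^ 2 := by
      refine (norm_add_le _ _).trans ?_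
      rw [norm_pow, norm_mul, norm_mul, Complex.norm_I, mul_one]
      have : ‖(4 : ℂ)‖ = 4 := by simp
      rw [this]
    have e3 : (81 : ℝ) / 25 ≤ ‖R‖ ^ 2 := by nlinarith
    have e4 : 0 ≤ ‖r‖ := norm_nonneg _
    have e5 : ‖r‖ ^ 2 ≤ 4 / 10 * (4 * n) := by nlinarith
    have e6 : 6 * n * (81 / 25) ≤ 6 * n * ‖R‖ ^ 2 := mul_le_mul_of_nonneg_left e3 (by positivity)
    linarith

theorem FE4_UL (Γ : Subgroup SL(2, ℝ)) (δ : ℝ) (B : ℕ → ℝ) (U : ℍ → ℝ) (h : Pot Γ δ B U) (hδ : 0 < δ) (g x : SL(2, ℝ)) :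
    |U ((g * x) • I) - U (g • I)| ≤ 20 * δ * nm x ∧ |n2 U (g * x) - n2 U g| ≤ 20 * δ * nm x := by
  have hn0 : 0 ≤ nm x := (abs_nonneg _).trans (FE4_nm x).1
  rcases le_or_gt (nm x) (1 / 10) with hx | hx
  · obtain ⟨h1, h2⟩ := FE4_ze x hx
    have hz1 : ‖VQE.ze (VQE.mt x)‖ ≤ 1 := by linarith
    have hδn : 0 ≤ δ * nm x := by positivity
    refine ⟨?_, ?_⟩
    · rw [VQE.PZE_proof.2.1 U g x]
      have e0 : U (g • I) = Ug U g 0 := by
        unfold Ug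
        rw [VQE.PCF_cdi0]
      rw [e0]
      refine (FE4_v1 Γ δ B U h g _ hz1).trans ?_
      have := mul_le_mul_of_nonneg_left h1 hδ.le
      nlinarith
    · rw [VQE.PZE_proof.2.2 U g x h.smooth]
      have e1 : fderiv ℝ (Ug U g) (VQE.ze (VQE.mt x)) (VQE.et (VQE.mt x) * Complex.I) - n2 U g =
          fderiv ℝ (Ug U g) (VQE.ze (VQE.mt x)) ((VQE.et (VQE.mt x) - 1) * Complex.I) +
          (fderiv ℝ (Ug U g) (VQE.ze (VQE.mt x)) - fderiv ℝ (Ug U g) 0) Complex.I := by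
        unfold n2
        rw [sub_mul, one_mul, map_sub, ContinuousLinearMap.sub_apply]
        ring
      rw [e1]
      refine (abs_add_le _ _).trans ?_
      have e2 := (fderiv ℝ (Ug U g) (VQE.ze (VQE.mt x))).le_opNorm ((VQE.et (VQE.mt x) - 1) * Complex.I)
      have e3 := (fderiv ℝ (Ug U g) (VQE.ze (VQE.mt x)) - fderiv ℝ (Ug U g) 0).le_opNorm Complex.I
      rw [norm_mul, Complex.norm_I, mul_one, Real.norm_eq_abs] at e2
      rw [Complex.norm_I, mul_one, Real.norm_eq_abs] at e3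
      have e4 := FE4_f1 Γ δ B U h g _ hz1
      have e5 := FE4_v2 Γ δ B U h g _ hz1
      have e6 : ‖fderiv ℝ (Ug U g) (VQE.ze (VQE.mt x))‖ * ‖VQE.et (VQE.mt x) - 1‖ ≤ δ * (6 * nm x) :=
        mul_le_mul e4 h2 (norm_nonneg _) hδ.le
      have e7 := mul_le_mul_of_nonneg_left h1 hδ.le
      nlinarith
  · have a1 := abs_le.1 (FE4_f0 Γ δ B U h g)
    have a2 := abs_le.1 (FE4_f0 Γ δ B U h (g * x))
    have a3 := abs_le.1 (FE4_n2 Γ δ B U h g)
    have a4 := abs_le.1 (FE4_n2 Γ δ B U h (g * x))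
    have a5 : 2 * δ ≤ 20 * δ * nm x := by nlinarith
    refine ⟨?_, ?_⟩
    · rw [abs_le]
      constructor <;> linarith
    · rw [abs_le]
      constructor <;> linarith

theorem FE4_kk : kM (Real.pi / 2) * kM (Real.pi / 2) = -1 := by
  apply Subtype.ext
  have h00 : (kM (Real.pi / 2)).1 0 0 = Real.cos (Real.pi / 2) := rfl
  have h01 : (kM (Real.pi / 2)).1 0 1 = Real.sin (Real.pi / 2) := rfl
  have h10 : (kM (Real.pi / 2)).1 1 0 = -Real.sin (Real.pi / 2) := rfl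
  have h11 : (kM (Real.pi / 2)).1 1 1 = Real.cos (Real.pi / 2) := rfl
  rw [Real.cos_pi_div_two] at h00 h11
  rw [Real.sin_pi_div_two] at h01 h10
  rw [Matrix.SpecialLinearGroup.coe_mul, Matrix.SpecialLinearGroup.coe_neg, Matrix.SpecialLinearGroup.coe_one]
  ext i j
  rw [Matrix.mul_apply, Fin.sum_univ_two]
  fin_cases i <;> fin_cases j <;> simp [h00, h01, h10, h11]

theorem FE4_mono (Γ : Subgroup SL(2, ℝ)) (δ δ' : ℝ) (B : ℕ → ℝ) (D : Dyn) (h : OKD Γ δ B D) (hd : δ ≤ δ') : OKD Γ δ' B D :=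
  { h with pot := { h.pot with near := fun g v hv n hn => (h.pot.near g v hv n hn).trans hd } }

theorem FE4_proof (hFLB : FLB_stmt) : FE4_stmt := by
  intro Γ hΓ
  obtain ⟨δ0, hδ0, hF⟩ := hFLB Γ hΓ
  refine ⟨max 100 (1 / δ0), le_trans (by norm_num) (le_max_left _ _), ?_⟩
  intro δ B D hδ hKδ hD
  set K : ℝ := max 100 (1 / δ0) with hK
  have hK1 : 100 ≤ K := le_max_left _ _
  have hK2 : 1 / δ0 ≤ K := le_max_right _ _
  have hδ1 : δ ≤ 1 / 1000 := by nlinarith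
  have hδ2 : δ ≤ δ0 := by
    have h1 : 1 / δ0 * δ ≤ 1 := by nlinarith
    rw [one_div, inv_mul_le_iff₀ hδ0] at h1
    linarith
  have hD' := FE4_mono Γ δ δ0 B D hD hδ2
  have hfl := hF B D hD'
  have hKd : 0 < K * δ := by positivity
  have hKd100 : 100 * δ ≤ K * δ := mul_le_mul_of_nonneg_right hK1 hδ.le
  have hE8 : ∀ E : ℝ, |E| ≤ K * δ / 4 → |E| ≤ 1 / 8 := fun E hE => by linarith
  have hp := hD.pot
  -- bounds for the speed
  have hrad : ∀ (E : ℝ) (g : SL(2, ℝ)), |E| ≤ K * δ / 4 → |D.U (g • I) + 2 * E - 1| ≤ δ + K * δ / 2 := by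
    intro E g hE
    have a1 := abs_le.1 (FE4_f0 Γ δ B D.U hp g)
    have a2 := abs_le.1 hE
    rw [abs_le]
    constructor <;> linarith
  have hrho : ∀ (E : ℝ) (g : SL(2, ℝ)), |E| ≤ K * δ / 4 → 9 / 10 ≤ rho D.U E g ∧ rho D.U E g ^ 2 = D.U (g • I) + 2 * E := by
    intro E g hE
    have a1 := abs_le.1 (hrad E g hE)
    unfold rho
    refine ⟨Real.le_sqrt_of_sq_le ?_, Real.sq_sqrt ?_⟩
    · norm_num
      linarith
    · linarith
  have hUn := FE4_UL Γ δ B D.U hp hδ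
  have hlr : ∀ (E E' : ℝ) (g x : SL(2, ℝ)), |E| ≤ K * δ / 4 → |E'| ≤ K * δ / 4 →
      |rho D.U E' (g * x) - rho D.U E g| ≤ 12 * δ * nm x + 6 / 5 * |E' - E| := by
    intro E E' g x hE hE'
    obtain ⟨r1, r2⟩ := hrho E g hE
    obtain ⟨s1, s2⟩ := hrho E' (g * x) hE'
    have h1 : |rho D.U E' (g * x) ^ 2 - rho D.U E g ^ 2| ≤ 20 * δ * nm x + 2 * |E' - E| := by
      rw [r2, s2]
      have e1 : D.U ((g * x) • I) + 2 * E' - (D.U (g • I) + 2 * E) = (D.U ((g * x) • I) - D.U (g • I)) + 2 * (E' - E) := by ring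
      rw [e1]
      refine (abs_add_le _ _).trans ?_
      rw [abs_mul, abs_of_pos (show (0 : ℝ) < 2 by norm_num)]
      have := (hUn g x).1
      linarith
    have h2 : |rho D.U E' (g * x) ^ 2 - rho D.U E g ^ 2| = |rho D.U E' (g * x) - rho D.U E g| * (rho D.U E' (g * x) + rho D.U E g) := by
      rw [show rho D.U E' (g * x) ^ 2 - rho D.U E g ^ 2 = (rho D.U E' (g * x) - rho D.U E g) * (rho D.U E' (g * x) + rho D.U E g) by ring,
        abs_mul, abs_of_pos (show 0 < rho D.U E' (g * x) + rho D.U E g by linarith)]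
    rw [h2] at h1
    have h3 := abs_nonneg (rho D.U E' (g * x) - rho D.U E g)
    have h4 : |rho D.U E' (g * x) - rho D.U E g| * (9 / 5) ≤ |rho D.U E' (g * x) - rho D.U E g| * (rho D.U E' (g * x) + rho D.U E g) :=
      mul_le_mul_of_nonneg_left (by linarith) h3
    have h5 := abs_nonneg (E' - E)
    have hn0 : 0 ≤ nm x := (abs_nonneg _).trans (FE4_nm x).1
    have h6 : 0 ≤ δ * nm x := by positivity
    linarith
  refine ⟨?_, ?_, ?_, ?_, hD.fl0 , ?_, ?_, ?_, ?_⟩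
  · intro E g hE
    obtain ⟨r1, r2⟩ := hrho E g hE
    have h1 := hrad E g hE
    rw [← r2] at h1
    have h2 : |rho D.U E g ^ 2 - 1| = |rho D.U E g - 1| * (rho D.U E g + 1) := by
      rw [show rho D.U E g ^ 2 - 1 = (rho D.U E g - 1) * (rho D.U E g + 1) by ring, abs_mul,
        abs_of_pos (show 0 < rho D.U E g + 1 by linarith)]
    rw [h2] at h1
    have h3 := abs_nonneg (rho D.U E g - 1)
    have h4 : |rho D.U E g - 1| * 1 ≤ |rho D.U E g - 1| * (rho D.U E g + 1) := mul_le_mul_of_nonneg_left (by linarith) h3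
    linarith
  · intro E g hE
    obtain ⟨r1, r2⟩ := hrho E g hE
    have h1 := FE4_n2 Γ δ B D.U hp g
    unfold kap
    rw [abs_div, abs_of_pos (show 0 < 2 * rho D.U E g by linarith), div_le_iff₀ (by linarith)]
    nlinarith
  · intro E E' g x hE hE'
    have h1 := hlr E E' g x hE hE'
    have hn0 : 0 ≤ nm x := (abs_nonneg _).trans (FE4_nm x).1
    have h5 := abs_nonneg (E' - E)
    have h6 := mul_le_mul_of_nonneg_right hKd100 hn0
    have h7 : 0 ≤ δ * nm x := by positivity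
    linarith
  · intro E E' g x hE hE'
    obtain ⟨r1, r2⟩ := hrho E g hE
    obtain ⟨s1, s2⟩ := hrho E' (g * x) hE'
    have h1 := hlr E E' g x hE hE'
    have hn0 : 0 ≤ nm x := (abs_nonneg _).trans (FE4_nm x).1
    have h5 := abs_nonneg (E' - E)
    have h6 := mul_le_mul_of_nonneg_right hKd100 hn0
    have h7 : 0 ≤ δ * nm x := by positivity
    have h8 := (hUn g x).2
    have h9 := FE4_n2 Γ δ B D.U hp g
    unfold kap
    set ρ := rho D.U E g with hρd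
    set ρ' := rho D.U E' (g * x) with hρd'
    set n := n2 D.U g with hnd
    set n' := n2 D.U (g * x) with hnd'
    have e1 : n' / (2 * ρ') - n / (2 * ρ) = (n' - n) / (2 * ρ') + n * (ρ - ρ') / (2 * ρ * ρ') := by
      field_simp
      ring
    rw [e1]
    refine (abs_add_le _ _).trans ?_
    have e2 : |(n' - n) / (2 * ρ')| ≤ 20 * δ * nm x := by
      rw [abs_div, abs_of_pos (show 0 < 2 * ρ' by linarith), div_le_iff₀ (by linarith)]
      nlinarith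
    have e3 : |n * (ρ - ρ') / (2 * ρ * ρ')| ≤ 12 * δ * nm x + 6 / 5 * |E' - E| := by
      have hpos : 0 < 2 * ρ * ρ' := by positivity
      rw [abs_div, abs_of_pos hpos, div_le_iff₀ hpos, abs_mul, abs_sub_comm ρ ρ']
      have e4 : (1 : ℝ) ≤ 2 * ρ * ρ' := by nlinarith
      have e5 : |n| * |ρ' - ρ| ≤ 1 * (12 * δ * nm x + 6 / 5 * |E' - E|) :=
        mul_le_mul (by linarith) h1 (abs_nonneg _) (by norm_num)
      have e6 : 0 ≤ 12 * δ * nm x + 6 / 5 * |E' - E| := (abs_nonneg _).trans h1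
      nlinarith
    linarith
  · intro E s t g hE
    exact (hfl E (hE8 E hE)).1 s t g
  · intro E t g hE
    have hr := (hfl E (hE8 E hE)).2.2
    have hk : ∀ g : SL(2, ℝ), g * kM (Real.pi / 2) * kM (Real.pi / 2) = -g := by
      intro g
      rw [mul_assoc, FE4_kk, mul_neg, mul_one]
    have h1 := hr (-t) (g * kM (Real.pi / 2))
    rw [neg_neg, hk, hr t g, hk] at h1
    exact h1
  · exact hD.cfl.mono (fun p hp => hE8 p.1 hp)
  · intro E t g hE i j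
    exact hD.dfl E t g (hE8 E hE) i j

end Pool.Agent.VQ
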