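import Pool.Agent.helper93.VQ.Spec4c

/-!
# MP_07c750, project VQ, row RJT: regular curves and multiplication by fixed elements
-/

set_option autoImplicit false

open scoped MatrixGroups ContDiff Topology UpperHalfPlane ComplexConjugate ENNReal
open UpperHalfPlane MeasureTheory Filter Set

namespace Pool.Agent.VQ

open Pool.Agent.RS
open Pool.Agent.VQE (nm)

theorem RJT_m (a b A B : ℝ) (ha : |a| ≤ A) (hb : |b| ≤ B) : |a * b| ≤ A * B := by
  rw [abs_mul]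
  exact mul_le_mul ha hb (abs_nonneg _) ((abs_nonneg _).trans ha)

/-- products of entries of a matrix close to `1` -/
theorem RJT_pr (p q r s : ℝ) (hp : |p - 1| ≤ 1 / 10000) (hq : |q| ≤ 1 / 10000) (hr : |r| ≤ 1 / 10000) (hs : |s - 1| ≤ 1 / 10000) :
    |p ^ 2 - 1| ≤ 3 / 10000 ∧ |p * r| ≤ 2 / 10000 ∧ |r * r| ≤ 1 / 10000 ∧ |p * s + q * r - 1| ≤ 4 / 10000 ∧ |r * s| ≤ 2 / 10000 ∧
    |p * q| ≤ 2 / 10000 ∧ |q * s| ≤ 2 / 10000 ∧ |s * s - 1| ≤ 3 / 10000 ∧ |q * q| ≤ 1 / 10000 := by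
  have m1 := abs_le.1 (RJT_m _ _ _ _ hp hp)
  have m2 := abs_le.1 (RJT_m _ _ _ _ hp hr)
  have m3 := abs_le.1 (RJT_m _ _ _ _ hr hr)
  have m4 := abs_le.1 (RJT_m _ _ _ _ hp hs)
  have m5 := abs_le.1 (RJT_m _ _ _ _ hq hr)
  have m6 := abs_le.1 (RJT_m _ _ _ _ hr hs)
  have m7 := abs_le.1 (RJT_m _ _ _ _ hp hq)
  have m8 := abs_le.1 (RJT_m _ _ _ _ hq hs)
  have m9 := abs_le.1 (RJT_m _ _ _ _ hs hs)
  have m0 := abs_le.1 (RJT_m _ _ _ _ hq hq)
  have p' := abs_le.1 hp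
  have q' := abs_le.1 hq
  have r' := abs_le.1 hr
  have s' := abs_le.1 hs
  refine ⟨?_, ?_, ?_, ?_, ?_, ?_, ?_, ?_, ?_⟩ <;> rw [abs_le] <;> constructor <;> linarith

/-- the new slopes: numerators and denominator -/
theorem RJT_CXB (p q r s ξ β : ℝ) (hp : |p - 1| ≤ 1 / 10000) (hq : |q| ≤ 1 / 10000) (hr : |r| ≤ 1 / 10000) (hs : |s - 1| ≤ 1 / 10000)
    (hξ : |ξ| ≤ 1 / 100) (hβ : |β| ≤ 1 / 100) :
    |p ^ 2 - ξ * (p * r) - β * (r * r) - 1| ≤ 4 / 10000 ∧ |ξ * (p * s + q * r) + 2 * β * (r * s) - 2 * (p * q) - ξ| ≤ 5 / 10000 ∧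
    |ξ * (q * s) + β * (s * s) - q * q - β| ≤ 2 / 10000 := by
  obtain ⟨h1, h2, h3, h4, h5, h6, h7, h8, h9⟩ := RJT_pr p q r s hp hq hr hs
  have a1 := abs_le.1 h1
  have a2 := abs_le.1 (RJT_m _ _ _ _ hξ h2)
  have a3 := abs_le.1 (RJT_m _ _ _ _ hβ h3)
  have a4 := abs_le.1 (RJT_m _ _ _ _ hξ h4)
  have a5 := abs_le.1 (RJT_m _ _ _ _ hβ h5)
  have a6 := abs_le.1 h6
  have a7 := abs_le.1 (RJT_m _ _ _ _ hξ h7)
  have a8 := abs_le.1 (RJT_m _ _ _ _ hβ h8)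
  have a9 := abs_le.1 h9
  refine ⟨?_, ?_, ?_⟩ <;> rw [abs_le] <;> constructor <;> linarith

theorem RJT_fin (u w a b e f K : ℝ) (ha : a ^ 2 ≤ (101 / 100) ^ 2) (hb : b ^ 2 ≤ (1 / 100) ^ 2) (he : e ^ 2 ≤ (1 / 100) ^ 2)
    (hf : f ^ 2 ≤ (101 / 100) ^ 2) (hK : (99 / 100) ^ 2 ≤ K) : (u * a + w * b) ^ 2 + (u * e + w * f) ^ 2 ≤ 3 * (u ^ 2 + w ^ 2) * K := by
  have s1 : (u * a + w * b) ^ 2 ≤ 2 * (u ^ 2 * a ^ 2) + 2 * (w ^ 2 * b ^ 2) := by
    have := sq_nonneg (u * a - w * b)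
    linarith
  have s2 : (u * e + w * f) ^ 2 ≤ 2 * (u ^ 2 * e ^ 2) + 2 * (w ^ 2 * f ^ 2) := by
    have := sq_nonneg (u * e - w * f)
    linarith
  have t1 := mul_le_mul_of_nonneg_left ha (sq_nonneg u)
  have t2 := mul_le_mul_of_nonneg_left hb (sq_nonneg w)
  have t3 := mul_le_mul_of_nonneg_left he (sq_nonneg u)
  have t4 := mul_le_mul_of_nonneg_left hf (sq_nonneg w)
  have t5 := mul_le_mul_of_nonneg_left hK (sq_nonneg u)
  have t6 := mul_le_mul_of_nonneg_left hK (sq_nonneg w)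
  have t7 := sq_nonneg u
  have t8 := sq_nonneg w
  have e1 : 3 * (u ^ 2 + w ^ 2) * K = 3 * (u ^ 2 * K) + 3 * (w ^ 2 * K) := by ring
  rw [e1]
  norm_num at t1 t2 t3 t4 t5 t6
  linarith

/-- the map of the slopes is Lipschitz -/
theorem RJT_lip (p q r s ξ β ξ' β' C X Z C' X' Z' : ℝ) (hp : |p - 1| ≤ 1 / 10000) (hq : |q| ≤ 1 / 10000) (hr : |r| ≤ 1 / 10000)
    (hs : |s - 1| ≤ 1 / 10000) (hξ : |ξ| ≤ 1 / 100) (hβ : |β| ≤ 1 / 100) (hξ' : |ξ'| ≤ 1 / 100) (hβ' : |β'| ≤ 1 / 100)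
    (hC : C = p ^ 2 - ξ * (p * r) - β * (r * r)) (hX : X = ξ * (p * s + q * r) + 2 * β * (r * s) - 2 * (p * q))
    (hZ : Z = ξ * (q * s) + β * (s * s) - q * q) (hC' : C' = p ^ 2 - ξ' * (p * r) - β' * (r * r))
    (hX' : X' = ξ' * (p * s + q * r) + 2 * β' * (r * s) - 2 * (p * q)) (hZ' : Z' = ξ' * (q * s) + β' * (s * s) - q * q) :
    (X / C - X' / C') ^ 2 + (Z / C - Z' / C') ^ 2 ≤ 3 * ((ξ - ξ') ^ 2 + (β - β') ^ 2) ∧ |C - C'| ≤ 3 / 10000 * (|ξ - ξ'| + |β - β'|) := by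
  obtain ⟨h1, h2, h3, h4, h5, h6, h7, h8, h9⟩ := RJT_pr p q r s hp hq hr hs
  obtain ⟨c1, x1, z1⟩ := RJT_CXB p q r s ξ β hp hq hr hs hξ hβ
  obtain ⟨c2, x2, z2⟩ := RJT_CXB p q r s ξ' β' hp hq hr hs hξ' hβ'
  rw [← hC] at c1
  rw [← hX] at x1
  rw [← hZ] at z1
  rw [← hC'] at c2
  rw [← hX'] at x2
  rw [← hZ'] at z2
  have c1' := abs_le.1 c1
  have c2' := abs_le.1 c2
  have hC0 : 0 < C := by linarith
  have hC0' : 0 < C' := by linarith
  constructor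
  · have hXX : |X'| ≤ 1 := by
      have e1 := abs_le.1 x2
      have e2 := abs_le.1 hξ'
      rw [abs_le]
      constructor <;> linarith
    have hZZ : |Z'| ≤ 1 := by
      have e1 := abs_le.1 z2
      have e2 := abs_le.1 hβ'
      rw [abs_le]
      constructor <;> linarith
    have hCC : |C'| ≤ 11 / 10 := by
      rw [abs_le]
      constructor <;> linarith
    have e1 : X / C - X' / C' = ((ξ - ξ') * ((p * s + q * r) * C' + (p * r) * X') + (β - β') * (2 * ((r * s) * C') + (r * r) * X')) / (C * C') := by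
      rw [div_sub_div _ _ hC0.ne' hC0'.ne']
      congr 1
      rw [hC, hX, hC', hX']
      ring
    have e2 : Z / C - Z' / C' = ((ξ - ξ') * ((q * s) * C' + (p * r) * Z') + (β - β') * ((s * s) * C' + (r * r) * Z')) / (C * C') := by
      rw [div_sub_div _ _ hC0.ne' hC0'.ne']
      congr 1
      rw [hC, hZ, hC', hZ']
      ring
    rw [e1, e2, div_pow, div_pow, ← add_div, div_le_iff₀ (by positivity)]
    set a := (p * s + q * r) * C' + (p * r) * X' with ha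
    set b := 2 * ((r * s) * C') + (r * r) * X' with hb
    set e := (q * s) * C' + (p * r) * Z' with he
    set f := (s * s) * C' + (r * r) * Z' with hf
    have k1 := abs_le.1 (RJT_m _ _ _ _ h4 hCC)
    have k2 := abs_le.1 (RJT_m _ _ _ _ h2 hXX)
    have k3 := abs_le.1 (RJT_m _ _ _ _ h5 hCC)
    have k4 := abs_le.1 (RJT_m _ _ _ _ h3 hXX)
    have k5 := abs_le.1 (RJT_m _ _ _ _ h7 hCC)
    have k6 := abs_le.1 (RJT_m _ _ _ _ h2 hZZ)
    have k7 := abs_le.1 (RJT_m _ _ _ _ h8 hCC)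
    have k8 := abs_le.1 (RJT_m _ _ _ _ h3 hZZ)
    have A1 : |a| ≤ 101 / 100 := by
      rw [ha, abs_le]
      constructor <;> linarith
    have B1 : |b| ≤ 1 / 100 := by
      rw [hb, abs_le]
      constructor <;> linarith
    have E1 : |e| ≤ 1 / 100 := by
      rw [he, abs_le]
      constructor <;> linarith
    have F1 : |f| ≤ 101 / 100 := by
      rw [hf, abs_le]
      constructor <;> linarith
    have A2 : a ^ 2 ≤ (101 / 100) ^ 2 := sq_le_sq' (abs_le.1 A1).1 (abs_le.1 A1).2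
    have B2 : b ^ 2 ≤ (1 / 100) ^ 2 := sq_le_sq' (abs_le.1 B1).1 (abs_le.1 B1).2
    have E2 : e ^ 2 ≤ (1 / 100) ^ 2 := sq_le_sq' (abs_le.1 E1).1 (abs_le.1 E1).2
    have F2 : f ^ 2 ≤ (101 / 100) ^ 2 := sq_le_sq' (abs_le.1 F1).1 (abs_le.1 F1).2
    have hCC1 : (99 : ℝ) / 100 ≤ C * C' := by
      have := mul_le_mul (show (999 : ℝ) / 1000 ≤ C by linarith) (show (999 : ℝ) / 1000 ≤ C' by linarith) (by norm_num) hC0.le
      linarith
    have hCC2 : (99 / 100 : ℝ) ^ 2 ≤ (C * C') ^ 2 := pow_le_pow_left₀ (by norm_num) hCC1 2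
    exact RJT_fin (ξ - ξ') (β - β') a b e f ((C * C') ^ 2) A2 B2 E2 F2 hCC2
  · have e1 : C - C' = -((ξ - ξ') * (p * r)) - (β - β') * (r * r) := by
      rw [hC, hC']
      ring
    rw [e1]
    have k1 := RJT_m _ _ _ _ (le_refl |ξ - ξ'|) h2
    have k2 := RJT_m _ _ _ _ (le_refl |β - β'|) h3
    have k1' := abs_le.1 k1
    have k2' := abs_le.1 k2
    have k3 := abs_nonneg (ξ - ξ')
    have k4 := abs_nonneg (β - β')
    rw [abs_le]
    constructor <;> linarith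

theorem RJT_abs (x b c κ : ℝ) (hc : 0 < c) (hκ : 0 < κ) (hκ1 : κ ≤ 1) (h : x ^ 2 + b ^ 2 ≤ (κ / 100) ^ 2 * c ^ 2) :
    |x / c| ≤ 1 / 100 ∧ |b / c| ≤ 1 / 100 := by
  have h1 : (κ / 100) ^ 2 * c ^ 2 ≤ (1 / 100 * c) ^ 2 := by
    rw [← mul_pow]
    refine pow_le_pow_left₀ (by positivity) ?_ 2
    exact mul_le_mul_of_nonneg_right (by linarith) hc.le
  have h0 : 0 ≤ 1 / 100 * c := by positivity
  rw [abs_div, abs_div, abs_of_pos hc, div_le_iff₀ hc, div_le_iff₀ hc]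
  constructor
  · exact abs_le_of_sq_le_sq (by nlinarith [sq_nonneg b]) h0
  · exact abs_le_of_sq_le_sq (by nlinarith [sq_nonneg x]) h0

theorem RJT_mono (κ : ℝ) (γ : ℝ → SL(2, ℝ)) (x b c ℓ : ℝ → ℝ) (h : RG κ γ x b c ℓ) (v v' : ℝ) (hv : v ≤ v') : ℓ v ≤ ℓ v' := by
  have h1 : Monotone ℓ := monotone_of_deriv_nonneg (fun v => (h.dl v).differentiableAt) (fun v => by
    rw [(h.dl v).deriv]
    exact (h.pos v).le)
  exact h1 hv

theorem RJT_det (y : SL(2, ℝ)) : y.1 0 0 * y.1 1 1 - y.1 0 1 * y.1 1 0 = 1 := by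
  have h := y.2
  rw [Matrix.det_fin_two] at h
  exact h

/-- part 1 -/
theorem RJT_one (κ : ℝ) (γ : ℝ → SL(2, ℝ)) (x b c ℓ : ℝ → ℝ) (y : SL(2, ℝ)) (hκ : κ = 1 / 2 ∨ κ = 1) (h : RG κ γ x b c ℓ)
    (hy : nm y ≤ 1 / 10000) :
    ∃ x' b' c' ℓ' : ℝ → ℝ, RG (2 * κ) (fun v => γ v * y) x' b' c' ℓ' ∧
      ∀ v v' : ℝ, v ≤ v' → 99 / 100 * (ℓ v' - ℓ v) ≤ ℓ' v' - ℓ' v ∧ ℓ' v' - ℓ' v ≤ 101 / 100 * (ℓ v' - ℓ v) := by
  have hdet := RJT_det y
  have hp : |y.1 0 0 - 1| ≤ 1 / 10000 := ((le_max_left _ _).trans (le_max_left _ _)).trans hy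
  have hq : |y.1 0 1| ≤ 1 / 10000 := ((le_max_right _ _).trans (le_max_left _ _)).trans hy
  have hr : |y.1 1 0| ≤ 1 / 10000 := ((le_max_left _ _).trans (le_max_right _ _)).trans hy
  have hs : |y.1 1 1 - 1| ≤ 1 / 10000 := ((le_max_right _ _).trans (le_max_right _ _)).trans hy
  have hκ0 : 1 / 2 ≤ κ := by rcases hκ with h | h <;> rw [h] <;> norm_num
  have hκ1 : κ ≤ 1 := by rcases hκ with h | h <;> rw [h] <;> norm_num
  set p := y.1 0 0 with hpd
  set q := y.1 0 1 with hqd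
  set r := y.1 1 0 with hrd
  set s := y.1 1 1 with hsd
  set x' : ℝ → ℝ := fun v => x v * (p * s + q * r) + 2 * b v * (r * s) - 2 * c v * (p * q) with hx'
  set b' : ℝ → ℝ := fun v => x v * (q * s) + b v * (s * s) - c v * (q * q) with hb'
  set c' : ℝ → ℝ := fun v => c v * p ^ 2 - x v * (p * r) - b v * (r * r) with hc'
  have cx' : Continuous x' := by
    have h1 := h.cx
    have h2 := h.cb
    have h3 := h.cc
    fun_prop
  have cb' : Continuous b' := by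
    have h1 := h.cx
    have h2 := h.cb
    have h3 := h.cc
    fun_prop
  have cc' : Continuous c' := by
    have h1 := h.cx
    have h2 := h.cb
    have h3 := h.cc
    fun_prop
  set ℓ' : ℝ → ℝ := fun v => ∫ t in (0 : ℝ)..v, c' t with hℓ'
  have dℓ' : ∀ v, HasDerivAt ℓ' (c' v) v := fun v =>
    intervalIntegral.integral_hasDerivAt_right (cc'.intervalIntegrable _ _) cc'.aestronglyMeasurable.stronglyMeasurableAtFilter cc'.continuousAt
  have hsl : ∀ v, |x v / c v| ≤ 1 / 100 ∧ |b v / c v| ≤ 1 / 100 := fun v =>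
    RJT_abs _ _ _ κ (h.pos v) (by linarith) hκ1 (h.cone v)
  -- the new coordinates in terms of the slopes
  have eC : ∀ v, c' v = c v * (p ^ 2 - x v / c v * (p * r) - b v / c v * (r * r)) := by
    intro v
    have := (h.pos v).ne'
    rw [hc']
    field_simp
  have eX : ∀ v, x' v = c v * (x v / c v * (p * s + q * r) + 2 * (b v / c v) * (r * s) - 2 * (p * q)) := by
    intro v
    have := (h.pos v).ne'
    rw [hx']
    field_simp
  have eB : ∀ v, b' v = c v * (x v / c v * (q * s) + b v / c v * (s * s) - q * q) := by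
    intro v
    have := (h.pos v).ne'
    rw [hb']
    field_simp
  have hbd : ∀ v, 99 / 100 * c v ≤ c' v ∧ c' v ≤ 101 / 100 * c v := by
    intro v
    have h1 := abs_le.1 (RJT_CXB p q r s _ _ hp hq hr hs (hsl v).1 (hsl v).2).1
    have h2 := h.pos v
    rw [eC v]
    constructor
    · have := mul_le_mul_of_nonneg_left h1.1 h2.le
      nlinarith
    · have := mul_le_mul_of_nonneg_left h1.2 h2.le
      nlinarith
  have hlen : ∀ v v' : ℝ, v ≤ v' → 99 / 100 * (ℓ v' - ℓ v) ≤ ℓ' v' - ℓ' v ∧ ℓ' v' - ℓ' v ≤ 101 / 100 * (ℓ v' - ℓ v) := by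
    intro v v' hv
    have m1 : Monotone (fun v => ℓ' v - 99 / 100 * ℓ v) := by
      refine monotone_of_deriv_nonneg (fun v => ((dℓ' v).sub ((h.dl v).const_mul _)).differentiableAt) (fun v => ?_)
      have h1 : HasDerivAt (fun v => ℓ' v - 99 / 100 * ℓ v) (c' v - 99 / 100 * c v) v := (dℓ' v).sub ((h.dl v).const_mul _)
      rw [h1.deriv]
      linarith [(hbd v).1]
    have m2 : Monotone (fun v => 101 / 100 * ℓ v - ℓ' v) := by
      refine monotone_of_deriv_nonneg (fun v => (((h.dl v).const_mul _).sub (dℓ' v)).differentiableAt) (fun v => ?_)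
      have h1 : HasDerivAt (fun v => 101 / 100 * ℓ v - ℓ' v) (101 / 100 * c v - c' v) v := ((h.dl v).const_mul _).sub (dℓ' v)
      rw [h1.deriv]
      linarith [(hbd v).2]
    have h1 := m1 hv
    have h2 := m2 hv
    simp only at h1 h2
    constructor <;> linarith
  have hpos' : ∀ v, 0 < c' v := fun v => by
    have := (hbd v).1
    have := h.pos v
    linarith
  refine ⟨x', b', c', ℓ', ⟨⟨⟨?_, cx', cb', cc'⟩, hpos', dℓ', ?_⟩, ?_, ?_⟩, hlen⟩
  · -- the derivative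
    intro v i j
    have hd : ∀ k l, HasDerivAt (fun s => (γ s).1 k l) (((γ v).1 * !![x v / 2, b v; c v, -(x v / 2)]) k l) v := h.der v
    have key : y.1 * !![x' v / 2, b' v; c' v, -(x' v / 2)] = !![x v / 2, b v; c v, -(x v / 2)] * y.1 := by
      ext k l
      rw [Matrix.mul_apply, Matrix.mul_apply, Fin.sum_univ_two, Fin.sum_univ_two]
      fin_cases k <;> fin_cases l
      · show y.1 0 0 * (x' v / 2) + y.1 0 1 * c' v = x v / 2 * y.1 0 0 + b v * y.1 1 0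
        rw [← hpd, ← hqd, ← hrd, hx', hc']
        linear_combination (x v / 2 * p + b v * r) * hdet
      · show y.1 0 0 * b' v + y.1 0 1 * (-(x' v / 2)) = x v / 2 * y.1 0 1 + b v * y.1 1 1
        rw [← hpd, ← hqd, ← hsd, hx', hb']
        linear_combination (x v / 2 * q + b v * s) * hdet
      · show y.1 1 0 * (x' v / 2) + y.1 1 1 * c' v = c v * y.1 0 0 + -(x v / 2) * y.1 1 0
        rw [← hpd, ← hrd, ← hsd, hx', hc']
        linear_combination (c v * p - x v / 2 * r) * hdet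
      · show y.1 1 0 * b' v + y.1 1 1 * (-(x' v / 2)) = c v * y.1 0 1 + -(x v / 2) * y.1 1 1
        rw [← hqd, ← hrd, ← hsd, hx', hb']
        linear_combination (c v * q - x v / 2 * s) * hdet
    have e1 : (fun s => (γ s * y).1 i j) = fun s => (γ s).1 i 0 * y.1 0 j + (γ s).1 i 1 * y.1 1 j := by
      funext s
      rw [Matrix.SpecialLinearGroup.coe_mul, Matrix.mul_apply, Fin.sum_univ_two]
    have e2 : ((γ v * y).1 * !![x' v / 2, b' v; c' v, -(x' v / 2)]) i j =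
        ((γ v).1 * !![x v / 2, b v; c v, -(x v / 2)]) i 0 * y.1 0 j + ((γ v).1 * !![x v / 2, b v; c v, -(x v / 2)]) i 1 * y.1 1 j := by
      rw [Matrix.SpecialLinearGroup.coe_mul, Matrix.mul_assoc, key, ← Matrix.mul_assoc, Matrix.mul_apply, Fin.sum_univ_two]
    show HasDerivAt (fun s => (γ s * y).1 i j) (((γ v * y).1 * !![x' v / 2, b' v; c' v, -(x' v / 2)]) i j) v
    rw [e1, e2]
    exact ((hd i 0).mul_const _).add ((hd i 1).mul_const _)
  · -- the cone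
    intro v
    have hc := h.pos v
    obtain ⟨k1, k2, k3⟩ := RJT_CXB p q r s _ _ hp hq hr hs (hsl v).1 (hsl v).2
    rw [eX v, eB v, eC v]
    have hcone := h.cone v
    have e1 : (x v / c v) ^ 2 + (b v / c v) ^ 2 ≤ (κ / 100) ^ 2 := by
      rw [div_pow, div_pow, ← add_div, div_le_iff₀ (by positivity)]
      exact hcone
    set ξ := x v / c v with hξ
    set β := b v / c v with hβ
    set C := p ^ 2 - ξ * (p * r) - β * (r * r) with hC
    set X := ξ * (p * s + q * r) + 2 * β * (r * s) - 2 * (p * q) with hX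
    set Z := ξ * (q * s) + β * (s * s) - q * q with hZ
    have k1' := abs_le.1 k1
    have hC1 : (99 / 100) ^ 2 ≤ C ^ 2 := pow_le_pow_left₀ (by norm_num) (by linarith) 2
    have u1 : (X - ξ) ^ 2 ≤ (5 / 10000) ^ 2 := sq_le_sq' (abs_le.1 k2).1 (abs_le.1 k2).2
    have u2 : (Z - β) ^ 2 ≤ (2 / 10000) ^ 2 := sq_le_sq' (abs_le.1 k3).1 (abs_le.1 k3).2
    clear_value C X Z
    clear hC hX hZ
    have u3 : X ^ 2 ≤ 2 * ξ ^ 2 + 2 * (X - ξ) ^ 2 := by
      have := sq_nonneg (X - ξ - ξ)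
      linarith
    have u4 : Z ^ 2 ≤ 2 * β ^ 2 + 2 * (Z - β) ^ 2 := by
      have := sq_nonneg (Z - β - β)
      linarith
    have u5 : (1 / 2) ^ 2 ≤ κ ^ 2 := pow_le_pow_left₀ (by norm_num) hκ0 2
    have u6 : κ ^ 2 * (99 / 100) ^ 2 ≤ κ ^ 2 * C ^ 2 := mul_le_mul_of_nonneg_left hC1 (sq_nonneg _)
    have u7 : X ^ 2 + Z ^ 2 ≤ (2 * κ / 100) ^ 2 * C ^ 2 := by
      have e2 : (2 * κ / 100) ^ 2 * C ^ 2 = 4 / 10000 * (κ ^ 2 * C ^ 2) := by ring
      rw [e2]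
      have e3 : (κ / 100) ^ 2 = κ ^ 2 / 10000 := by ring
      rw [e3] at e1
      norm_num at u1 u2 u5 u6
      linarith
    have u8 := mul_le_mul_of_nonneg_left u7 (sq_nonneg (c v))
    have u9 : (c v * X) ^ 2 + (c v * Z) ^ 2 = c v ^ 2 * (X ^ 2 + Z ^ 2) := by ring
    have u0 : (2 * κ / 100) ^ 2 * (c v * C) ^ 2 = c v ^ 2 * ((2 * κ / 100) ^ 2 * C ^ 2) := by ring
    rw [u9, u0]
    exact u8
  · -- the slopes
    intro v v' hv hle
    have hc := h.pos v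
    have hc1 := h.pos v'
    obtain ⟨l1, l2⟩ := hlen v v' hv
    have l0 := RJT_mono κ γ x b c ℓ h v v' hv
    have hκl : κ * (ℓ v' - ℓ v) ≤ 1 / 50 := by
      have e1 : κ * (99 / 100 * (ℓ v' - ℓ v)) ≤ κ * (ℓ' v' - ℓ' v) := mul_le_mul_of_nonneg_left l1 (by linarith)
      nlinarith
    have hs1 := h.sl v v' hv hκl
    obtain ⟨t1, t2⟩ := RJT_lip p q r s (x v / c v) (b v / c v) (x v' / c v') (b v' / c v') _ _ _ _ _ _ hp hq hr hs (hsl v).1 (hsl v).2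
      (hsl v').1 (hsl v').2 rfl rfl rfl rfl rfl rfl
    rw [eX v, eB v, eC v, eX v', eB v', eC v', mul_div_mul_left _ _ hc.ne', mul_div_mul_left _ _ hc.ne', mul_div_mul_left _ _ hc1.ne',
      mul_div_mul_left _ _ hc1.ne']
    refine t1.trans ?_
    have e2 : (2 * κ * (99 / 100 * (ℓ v' - ℓ v))) ^ 2 ≤ (2 * κ * (ℓ' v' - ℓ' v)) ^ 2 := by
      refine pow_le_pow_left₀ ?_ (mul_le_mul_of_nonneg_left l1 (by linarith)) 2
      have : 0 ≤ ℓ v' - ℓ v := by linarith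
      positivity
    refine le_trans ?_ e2
    have e3 : (2 * κ * (99 / 100 * (ℓ v' - ℓ v))) ^ 2 = 39204 / 10000 * (κ * (ℓ v' - ℓ v)) ^ 2 := by ring
    rw [e3]
    have e4 := sq_nonneg (κ * (ℓ v' - ℓ v))
    linarith
  · -- the logarithm
    intro v v' hv hle
    have hc := h.pos v
    have hc1 := h.pos v'
    obtain ⟨l1, l2⟩ := hlen v v' hv
    have l0 := RJT_mono κ γ x b c ℓ h v v' hv
    have hκl : κ * (ℓ v' - ℓ v) ≤ 1 / 50 := by
      have e1 : κ * (99 / 100 * (ℓ v' - ℓ v)) ≤ κ * (ℓ' v' - ℓ' v) := mul_le_mul_of_nonneg_left l1 (by linarith)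
      nlinarith
    have hs1 := h.sl v v' hv hκl
    have hd1 := h.di v v' hv hκl
    have hn : 0 ≤ κ * (ℓ v' - ℓ v) := mul_nonneg (by linarith) (by linarith)
    obtain ⟨t1, t2⟩ := RJT_lip p q r s (x v / c v) (b v / c v) (x v' / c v') (b v' / c v') _ _ _ _ _ _ hp hq hr hs (hsl v).1 (hsl v).2
      (hsl v').1 (hsl v').2 rfl rfl rfl rfl rfl rfl
    have w1 : |x v / c v - x v' / c v'| ≤ κ * (ℓ v' - ℓ v) := abs_le_of_sq_le_sq (by nlinarith [sq_nonneg (b v / c v - b v' / c v')]) hn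
    have w2 : |b v / c v - b v' / c v'| ≤ κ * (ℓ v' - ℓ v) := abs_le_of_sq_le_sq (by nlinarith [sq_nonneg (x v / c v - x v' / c v')]) hn
    have k1 := (RJT_CXB p q r s _ _ hp hq hr hs (hsl v).1 (hsl v).2).1
    have k2 := (RJT_CXB p q r s _ _ hp hq hr hs (hsl v').1 (hsl v').2).1
    rw [eC v, eC v']
    set C := p ^ 2 - x v / c v * (p * r) - b v / c v * (r * r) with hC
    set C1 := p ^ 2 - x v' / c v' * (p * r) - b v' / c v' * (r * r) with hC1
    have k1' := abs_le.1 k1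
    have k2' := abs_le.1 k2
    have hC0 : 0 < C := by linarith
    have hC10 : 0 < C1 := by linarith
    have g1 : |C - C1| ≤ 1 / 1000 * (κ * (ℓ v' - ℓ v)) := by linarith
    have g1' := abs_le.1 g1
    have g2 : Real.log C1 - Real.log C ≤ 1 / 100 * (κ * (ℓ v' - ℓ v)) := by
      rw [← Real.log_div hC10.ne' hC0.ne']
      refine (Real.log_le_sub_one_of_pos (by positivity)).trans ?_
      rw [div_sub_one hC0.ne', div_le_iff₀ hC0]
      have e6 : 1 / 100 * (κ * (ℓ v' - ℓ v)) * (1 / 2) ≤ 1 / 100 * (κ * (ℓ v' - ℓ v)) * C :=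
        mul_le_mul_of_nonneg_left (by linarith) (by linarith)
      linarith
    have g3 : Real.log C - Real.log C1 ≤ 1 / 100 * (κ * (ℓ v' - ℓ v)) := by
      rw [← Real.log_div hC0.ne' hC10.ne']
      refine (Real.log_le_sub_one_of_pos (by positivity)).trans ?_
      rw [div_sub_one hC10.ne', div_le_iff₀ hC10]
      have e6 : 1 / 100 * (κ * (ℓ v' - ℓ v)) * (1 / 2) ≤ 1 / 100 * (κ * (ℓ v' - ℓ v)) * C1 :=
        mul_le_mul_of_nonneg_left (by linarith) (by linarith)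
      linarith
    rw [Real.log_mul hc.ne' hC0.ne', Real.log_mul hc1.ne' hC10.ne']
    have hd2 := abs_le.1 hd1
    have e5 : κ * (99 / 100 * (ℓ v' - ℓ v)) ≤ κ * (ℓ' v' - ℓ' v) := mul_le_mul_of_nonneg_left l1 (by linarith)
    rw [abs_le]
    constructor <;> linarith

/-- part 2 -/
theorem RJT_two (κ : ℝ) (γ : ℝ → SL(2, ℝ)) (x b c ℓ : ℝ → ℝ) (g : SL(2, ℝ)) (h : RG κ γ x b c ℓ) : RG κ (fun v => g * γ v) x b c ℓ := by
  refine ⟨⟨⟨?_, h.cx, h.cb, h.cc⟩, h.pos, h.dl, h.cone⟩, h.sl, h.di⟩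
  intro v i j
  have hd : ∀ k l, HasDerivAt (fun s => (γ s).1 k l) (((γ v).1 * !![x v / 2, b v; c v, -(x v / 2)]) k l) v := h.der v
  have e1 : (fun s => (g * γ s).1 i j) = fun s => g.1 i 0 * (γ s).1 0 j + g.1 i 1 * (γ s).1 1 j := by
    funext s
    rw [Matrix.SpecialLinearGroup.coe_mul, Matrix.mul_apply, Fin.sum_univ_two]
  have e2 : ((g * γ v).1 * !![x v / 2, b v; c v, -(x v / 2)]) i j =
      g.1 i 0 * ((γ v).1 * !![x v / 2, b v; c v, -(x v / 2)]) 0 j + g.1 i 1 * ((γ v).1 * !![x v / 2, b v; c v, -(x v / 2)]) 1 j := by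
    rw [Matrix.SpecialLinearGroup.coe_mul, Matrix.mul_assoc, Matrix.mul_apply, Fin.sum_univ_two]
  show HasDerivAt (fun s => (g * γ s).1 i j) (((g * γ v).1 * !![x v / 2, b v; c v, -(x v / 2)]) i j) v
  rw [e1, e2]
  exact ((hd 0 j).const_mul _).add ((hd 1 j).const_mul _)

/-- part 3 -/
theorem RJT_three (κ κ' : ℝ) (γ : ℝ → SL(2, ℝ)) (x b c ℓ : ℝ → ℝ) (hκ : 0 < κ) (hκ' : κ ≤ κ') (h : RG κ γ x b c ℓ) : RG κ' γ x b c ℓ := by
  refine ⟨⟨⟨h.der, h.cx, h.cb, h.cc⟩, h.pos, h.dl, ?_⟩, ?_, ?_⟩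
  · intro v
    refine (h.cone v).trans ?_
    refine mul_le_mul_of_nonneg_right ?_ (sq_nonneg _)
    exact pow_le_pow_left₀ (by positivity) (by linarith) 2
  · intro v v' hv hle
    have h0 := RJT_mono κ γ x b c ℓ h v v' hv
    have h1 : κ * (ℓ v' - ℓ v) ≤ κ' * (ℓ v' - ℓ v) := mul_le_mul_of_nonneg_right hκ' (by linarith)
    refine (h.sl v v' hv (h1.trans hle)).trans ?_
    exact pow_le_pow_left₀ (mul_nonneg hκ.le (by linarith)) h1 2
  · intro v v' hv hle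
    have h0 := RJT_mono κ γ x b c ℓ h v v' hv
    have h1 : κ * (ℓ v' - ℓ v) ≤ κ' * (ℓ v' - ℓ v) := mul_le_mul_of_nonneg_right hκ' (by linarith)
    exact (h.di v v' hv (h1.trans hle)).trans h1

/-- part 4 -/
theorem RJT_four (g : SL(2, ℝ)) : RG (1 / 2) (fun u => g * lM u) (fun _ => 0) (fun _ => 0) (fun _ => 1) (fun u => u) := by
  refine ⟨⟨⟨?_, continuous_const, continuous_const, continuous_const⟩, fun _ => one_pos, fun v => hasDerivAt_id v, fun v => ?_⟩, ?_, ?_⟩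
  · intro v i j
    have l00 : ∀ u, (lM u).1 0 0 = 1 := fun u => rfl
    have l01 : ∀ u, (lM u).1 0 1 = 0 := fun u => rfl
    have l10 : ∀ u, (lM u).1 1 0 = u := fun u => rfl
    have l11 : ∀ u, (lM u).1 1 1 = 1 := fun u => rfl
    show HasDerivAt (fun s => (g * lM s).1 i j) (((g * lM v).1 * !![(0 : ℝ) / 2, 0; 1, -(0 / 2)]) i j) v
    have e1 : (fun s => (g * lM s).1 i j) = fun s => g.1 i 0 * (lM s).1 0 j + g.1 i 1 * (lM s).1 1 j := by
      funext s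
      rw [Matrix.SpecialLinearGroup.coe_mul, Matrix.mul_apply, Fin.sum_univ_two]
    rw [e1, Matrix.SpecialLinearGroup.coe_mul, Matrix.mul_apply, Fin.sum_univ_two, Matrix.mul_apply, Matrix.mul_apply, Fin.sum_univ_two,
      Fin.sum_univ_two, l00, l01, l10, l11]
    fin_cases j
    · show HasDerivAt (fun s => g.1 i 0 * (lM s).1 0 0 + g.1 i 1 * (lM s).1 1 0)
        ((g.1 i 0 * 1 + g.1 i 1 * v) * (0 / 2) + (g.1 i 0 * 0 + g.1 i 1 * 1) * 1) v
      simp only [l00, l10]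
      have h1 := ((hasDerivAt_id v).const_mul (g.1 i 1)).const_add (g.1 i 0 * 1)
      have e2 : (g.1 i 0 * 1 + g.1 i 1 * v) * (0 / 2) + (g.1 i 0 * 0 + g.1 i 1 * 1) * 1 = g.1 i 1 * 1 := by ring
      rw [e2]
      exact h1
    · show HasDerivAt (fun s => g.1 i 0 * (lM s).1 0 1 + g.1 i 1 * (lM s).1 1 1)
        ((g.1 i 0 * 1 + g.1 i 1 * v) * 0 + (g.1 i 0 * 0 + g.1 i 1 * 1) * (-(0 / 2))) v
      simp only [l01, l11]
      have e2 : (g.1 i 0 * 1 + g.1 i 1 * v) * 0 + (g.1 i 0 * 0 + g.1 i 1 * 1) * (-(0 / 2)) = 0 := by ring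
      rw [e2]
      exact hasDerivAt_const _ _
  · norm_num
  · intro v v' hv _
    have e : ((0 : ℝ) / 1 - 0 / 1) ^ 2 + ((0 : ℝ) / 1 - 0 / 1) ^ 2 = 0 := by norm_num
    show ((0 : ℝ) / 1 - 0 / 1) ^ 2 + ((0 : ℝ) / 1 - 0 / 1) ^ 2 ≤ (1 / 2 * (v' - v)) ^ 2
    rw [e]
    exact sq_nonneg _
  · intro v v' hv _
    simp only [Real.log_one, sub_self, abs_zero]
    have : 0 ≤ v' - v := by linarith
    positivity

/-- part 5 -/
theorem RJT_five (κ κ' : ℝ) (γ : ℝ → SL(2, ℝ)) (x b c ℓ x' b' c' ℓ' : ℝ → ℝ) (h : RG κ γ x b c ℓ) (h' : RG κ' γ x' b' c' ℓ') :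
    x = x' ∧ b = b' ∧ c = c' ∧ ∀ v v' : ℝ, ℓ v' - ℓ v = ℓ' v' - ℓ' v := by
  have key : ∀ v, !![x v / 2, b v; c v, -(x v / 2)] = !![x' v / 2, b' v; c' v, -(x' v / 2)] := by
    intro v
    have h1 : (γ v).1 * !![x v / 2, b v; c v, -(x v / 2)] = (γ v).1 * !![x' v / 2, b' v; c' v, -(x' v / 2)] := by
      ext i j
      exact (h.der v i j).unique (h'.der v i j)
    have h2 := congrArg (fun M => (γ v)⁻¹.1 * M) h1
    simp only [← Matrix.mul_assoc] at h2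
    rw [← Matrix.SpecialLinearGroup.coe_mul, inv_mul_cancel, Matrix.SpecialLinearGroup.coe_one, Matrix.one_mul, Matrix.one_mul] at h2
    exact h2
  have hx : x = x' := by
    funext v
    have h1 := congrFun (congrFun (key v) 0) 0
    have h2 : x v / 2 = x' v / 2 := h1
    linarith
  have hb : b = b' := by
    funext v
    exact congrFun (congrFun (key v) 0) 1
  have hc : c = c' := by
    funext v
    exact congrFun (congrFun (key v) 1) 0
  refine ⟨hx, hb, hc, fun v v' => ?_⟩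
  have h1 : ∀ v, HasDerivAt (fun v => ℓ v - ℓ' v) 0 v := by
    intro v
    have h2 := (h.dl v).sub (h'.dl v)
    rw [← hc, sub_self] at h2
    exact h2
  have h2 := is_const_of_deriv_eq_zero (f := fun v => ℓ v - ℓ' v) (fun v => (h1 v).differentiableAt) (fun v => (h1 v).deriv) v' v
  have h3 : ℓ v' - ℓ' v' = ℓ v - ℓ' v := h2
  linarith

theorem RJT_proof : RJT_stmt :=
  ⟨fun κ γ x b c ℓ y hκ h hy => RJT_one κ γ x b c ℓ y hκ h hy, fun κ γ x b c ℓ g h => RJT_two κ γ x b c ℓ g h,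
    fun κ κ' γ x b c ℓ hκ hκ' h => RJT_three κ κ' γ x b c ℓ hκ hκ' h, RJT_four, fun κ κ' γ x b c ℓ x' b' c' ℓ' h h' =>
      RJT_five κ κ' γ x b c ℓ x' b' c' ℓ' h h'⟩

end Pool.Agent.VQ
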